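import Mathlib

/-!
A set of points of the projective space of dimension five over the field with `p` elements whose
intersection numbers with hyperplanes are, modulo `p`, a bilinear pairing twisted by inversion.
-/

open Finset Matrix

namespace Pool.Agent.Lib.MP_3e2ec7_co.RK

variable {p : ℕ} [Fact p.Prime]

/-- vectors of length three -/
abbrev W (p : ℕ) := Fin 3 → ZMod p

/-- the vertex set -/
abbrev V (p : ℕ) := W p × W p

/-- indices of the points -/
abbrev Ix (p : ℕ) := Fin 3 × ZMod p × ZMod p × ZMod p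

/-- the standard pairing -/
def dot (a b : V p) : ZMod p := a.1 ⬝ᵥ b.1 + a.2 ⬝ᵥ b.2

/-- the point with index `(i, s, t, j)` -/
def pt (q : Ix p) : V p :=
  (Pi.single q.1 q.2.2.1 + Pi.single (q.1 + 1) (q.2.2.2 * q.2.1) + Pi.single (q.1 + 2) q.2.1,
    Pi.single q.1 1)

variable (p) in
/-- the indices in use -/
def T : Finset (Ix p) := univ.filter fun q => q.2.1 ≠ 0 ∧ q.2.2.2.val < q.2.2.1.val

/-- number of points on the hyperplane orthogonal to `v` -/
def Z (v : V p) : ℕ := ((T p).filter fun q => dot v (pt q) = 0).card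

lemma dot_sub (v g h : V p) : dot v (g - h) = dot v g + -dot v h := by
  simp only [dot, Prod.fst_sub, Prod.snd_sub, dotProduct_sub]; ring

lemma dot_smul (v g : V p) (c : ZMod p) : dot v (c • g) = c * dot v g := by
  simp only [dot, Prod.smul_fst, Prod.smul_snd, dotProduct_smul, smul_eq_mul]; ring

lemma dot_pt (a b : W p) (i : Fin 3) (s t j : ZMod p) :
    dot (a, b) (pt (i, s, t, j)) = s * (a (i + 1) * j + a (i + 2)) + (a i * t + b i) := by
  simp only [dot, pt, dotProduct_add, dotProduct_single]; ring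

lemma line_count (A B : ZMod p) :
    ∑ s : ZMod p, (if s ≠ 0 then (if s * A + B = 0 then (1 : ZMod p) else 0) else 0) =
      (if A = 0 then 0 else 1) - (if B = 0 then 1 else 0) := by
  have h1 : ∀ s : ZMod p, (if s ≠ 0 then (if s * A + B = 0 then (1 : ZMod p) else 0) else 0) =
      (if s * A + B = 0 then 1 else 0) - (if s = 0 then (if B = 0 then 1 else 0) else 0) := by
    intro s
    by_cases hs : s = 0 <;> simp [hs]
  simp only [h1, sum_sub_distrib, sum_ite_eq', mem_univ, if_true]
  congr 1
  by_cases hA : A = 0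
  · simp [hA]
  · have h2 : ∀ s : ZMod p, s * A + B = 0 ↔ s = -B / A := fun s => by
      rw [eq_div_iff hA, eq_neg_iff_add_eq_zero]
    simp only [h2, sum_ite_eq', mem_univ, if_true, if_neg hA]

lemma sum_lt (t : ZMod p) : ∑ j : ZMod p, (if j.val < t.val then (1 : ZMod p) else 0) = t := by
  rw [sum_boole]
  have : (univ.filter fun j : ZMod p => j.val < t.val).card = (range t.val).card := by
    refine card_bij (fun j _ => j.val) (fun j hj => mem_range.2 (mem_filter.1 hj).2)
      (fun a _ b _ h => ZMod.val_injective p h) fun k hk => ?_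
    have hk' : k < t.val := mem_range.1 hk
    have e : (k : ZMod p).val = k := ZMod.val_natCast_of_lt (hk'.trans (ZMod.val_lt t))
    exact ⟨k, mem_filter.2 ⟨mem_univ _, by rwa [e]⟩, e⟩
  rw [this, card_range, ZMod.natCast_zmod_val]

lemma two_ne (h5 : 5 ≤ p) : (2 : ZMod p) ≠ 0 := by
  intro h
  have := (ZMod.natCast_eq_zero_iff 2 p).1 (by exact_mod_cast h)
  have := Nat.le_of_dvd two_pos this
  omega

lemma sum_weight (h5 : 5 ≤ p) (α c : ZMod p) :
    ∑ t : ZMod p, t * (if α * t + c = 0 then (1 : ZMod p) else 0) = -(α⁻¹ * c) := by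
  by_cases hα : α = 0
  · have h1 : ∑ t : ZMod p, t = ∑ t : ZMod p, -t := (Equiv.sum_comp (Equiv.neg _) _).symm
    rw [sum_neg_distrib] at h1
    have h2 : ∑ t : ZMod p, t = 0 := by
      have : 2 * ∑ t : ZMod p, t = 0 := by linear_combination h1
      exact (mul_eq_zero.1 this).resolve_left (two_ne h5)
    simp only [hα, zero_mul, zero_add, ← sum_mul, h2, _root_.inv_zero, neg_zero]
  · have h2 : ∀ t : ZMod p, α * t + c = 0 ↔ t = -(α⁻¹ * c) := fun t => by
      constructor
      · intro h
        field_simp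
        linear_combination h
      · rintro rfl
        field_simp
        ring
    simp only [h2, mul_ite, mul_one, mul_zero, sum_ite_eq', mem_univ, if_true]

/-- the part of the count that does not depend on the second vector -/
def base (a : W p) : ZMod p := ∑ i : Fin 3, ∑ t : ZMod p, ∑ j : ZMod p,
  if j.val < t.val then (if a (i + 1) * j + a (i + 2) = 0 then 0 else 1) else 0

lemma Z_eq (h5 : 5 ≤ p) (a b : W p) :
    (Z (a, b) : ZMod p) = base a + (fun i => (a i)⁻¹) ⬝ᵥ b := by
  rw [Z, ← sum_boole, T, sum_filter, Fintype.sum_prod_type, base, dotProduct, ← sum_add_distrib]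
  refine sum_congr rfl fun i _ => ?_
  rw [Fintype.sum_prod_type, sum_comm, Fintype.sum_prod_type, ← neg_neg ((a i)⁻¹ * b i),
    ← sum_weight h5, ← sub_eq_add_neg, ← sum_sub_distrib]
  refine sum_congr rfl fun t _ => ?_
  have e : t * (if a i * t + b i = 0 then (1 : ZMod p) else 0) =
      ∑ j : ZMod p, if j.val < t.val then (if a i * t + b i = 0 then 1 else 0) else 0 := by
    generalize (if a i * t + b i = 0 then (1 : ZMod p) else 0) = x
    have := congrArg (· * x) (sum_lt t)
    rw [← this, sum_mul]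
    exact sum_congr rfl fun j _ => by split_ifs <;> simp
  rw [e, ← sum_sub_distrib]
  refine sum_congr rfl fun j _ => ?_
  by_cases h : j.val < t.val
  · simp only [h, and_true, if_true, dot_pt]
    exact line_count _ _
  · simp [h]

lemma pt_inj {q q' : Ix p} {c c' : ZMod p} (hc : c ≠ 0) (hs : q.2.1 ≠ 0)
    (h : c • pt q = c' • pt q') : q = q' ∧ c = c' := by
  obtain ⟨i, s, t, j⟩ := q
  obtain ⟨i', s', t', j'⟩ := q'
  have h2 := congrFun (congrArg Prod.snd h) i
  have hi : i = i' := by
    by_contra hne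
    simp [pt, hne, hc] at h2
  subst hi
  have hcc : c = c' := by simpa [pt] using h2
  subst hcc
  have h1 := congrArg Prod.fst (smul_right_injective _ hc h)
  have a0 := congrFun h1 i
  have a1 := congrFun h1 (i + 1)
  have a2 := congrFun h1 (i + 2)
  have n1 : i ≠ i + 1 := (by decide : ∀ i : Fin 3, i ≠ i + 1) i
  have n2 : i ≠ i + 2 := (by decide : ∀ i : Fin 3, i ≠ i + 2) i
  have n3 : i + 1 ≠ i + 2 := (by decide : ∀ i : Fin 3, i + 1 ≠ i + 2) i
  simp only [pt, Pi.add_apply, Pi.single_eq_same, Pi.single_eq_of_ne n1, Pi.single_eq_of_ne n2,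
    Pi.single_eq_of_ne n3, Pi.single_eq_of_ne n1.symm, Pi.single_eq_of_ne n2.symm,
    Pi.single_eq_of_ne n3.symm, add_zero, zero_add] at a0 a1 a2
  subst a0 a2
  obtain rfl : j = j' := mul_right_cancel₀ hs a1
  exact ⟨rfl, rfl⟩

lemma pt_snd_ne (q : Ix p) {c : ZMod p} (hc : c ≠ 0) : (c • pt q).2 ≠ 0 := by
  intro h
  have := congrFun h q.1
  simp [pt, hc] at this

end Pool.Agent.Lib.MP_3e2ec7_co.RK
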