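import Pool.Agent.Lib.MP_3e2ec7_co.Basic
import Pool.Agent.Lib.MP_3e2ec7_co.RK.Count

/-!
The graph on `p ^ 6` vertices, uniform mixing at time `2 π / p ^ 2`, and the multiplicative
independence of `(p - 3) / 2` eigenvalues of the transition matrix.
-/

open Finset Matrix

namespace Pool.Agent.Lib.MP_3e2ec7_co.RK

variable {p : ℕ} [Fact p.Prime]

/-- the standard additive character -/
noncomputable def e : AddChar (ZMod p) ℂ := ZMod.stdAddChar

lemma e_add (a b : ZMod p) : e (a + b) = e a * e b := e.map_add_eq_mul a b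

lemma e_zero : e (0 : ZMod p) = 1 := e.map_zero_eq_one

lemma norm_e (a : ZMod p) : ‖e a‖ = 1 := by
  unfold e
  rw [ZMod.stdAddChar_apply]
  exact Circle.norm_coe _

lemma sum_e (t : ZMod p) : ∑ x : ZMod p, e (x * t) = if t = 0 then (p : ℂ) else 0 := by
  have := AddChar.sum_mulShift (ψ := (ZMod.stdAddChar : AddChar (ZMod p) ℂ)) t
    (ZMod.isPrimitive_stdAddChar p)
  unfold e
  rw [this]
  split_ifs <;> simp

lemma sum_eW (m : W p) : ∑ y : W p, e (y ⬝ᵥ m) = if m = 0 then (p : ℂ) ^ 3 else 0 := by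
  have h1 : ∀ y : W p, e (y ⬝ᵥ m) = ∏ i, e (y i * m i) := fun y => by
    simp only [dotProduct, Fin.sum_univ_three, Fin.prod_univ_three, e_add]
  simp only [h1]
  rw [← Fintype.piFinset_univ, ← prod_univ_sum (fun _ => univ) fun i x => e (x * m i)]
  simp only [sum_e]
  by_cases hm : m = 0
  · simp [hm]
  · obtain ⟨i, hi⟩ := Function.ne_iff.1 hm
    rw [if_neg hm]
    exact prod_eq_zero (mem_univ i) (if_neg hi)

lemma sum_eV (m : V p) : ∑ v : V p, e (dot v m) = if m = 0 then (p : ℂ) ^ 6 else 0 := by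
  rw [Fintype.sum_prod_type]
  simp only [dot, e_add]
  rw [← sum_mul_sum, sum_eW, sum_eW]
  obtain ⟨a, b⟩ := m
  by_cases ha : a = 0 <;> by_cases hb : b = 0 <;> simp [ha, hb]
  ring

variable (p) in
/-- indices of the nonzero vectors on the chosen lines -/
def LL : Finset (Ix p × ZMod p) := T p ×ˢ univ.filter (· ≠ 0)

variable (p) in
/-- the generator of the cycle -/
def cy : V p := (Pi.single 0 1, 0)

variable (p) in
/-- the nonzero vectors on the chosen lines -/
def S0 : Finset (V p) := (LL p).image fun x => x.2 • pt x.1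

variable (p) in
/-- the connection set -/
def S : Finset (V p) := insert (cy p) (insert (-cy p) (S0 p))

lemma snd_ne_of_mem {s : V p} (h : s ∈ S0 p) : s.2 ≠ 0 := by
  obtain ⟨x, hx, rfl⟩ := mem_image.1 h
  exact pt_snd_ne _ (mem_filter.1 (mem_product.1 hx).2).2

lemma cy_ne : cy p ≠ 0 := by
  intro h
  have := congrFun (congrArg Prod.fst h) 0
  simp [cy] at this

lemma S_neg {s : V p} (h : s ∈ S p) : -s ∈ S p := by
  simp only [S, mem_insert] at h ⊢
  rcases h with rfl | rfl | h
  · exact Or.inr (Or.inl rfl)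
  · exact Or.inl (neg_neg _)
  · obtain ⟨x, hx, rfl⟩ := mem_image.1 h
    refine Or.inr (Or.inr (mem_image.2 ⟨(x.1, -x.2), mem_product.2 ⟨(mem_product.1 hx).1, ?_⟩,
      neg_smul _ _⟩))
    exact mem_filter.2 ⟨mem_univ _, neg_ne_zero.2 (mem_filter.1 (mem_product.1 hx).2).2⟩

lemma S_zero : (0 : V p) ∉ S p := by
  simp only [S, mem_insert, not_or]
  exact ⟨cy_ne.symm, (neg_ne_zero.2 cy_ne).symm, fun h => snd_ne_of_mem h rfl⟩

variable (p) in
/-- the graph -/
def G : SimpleGraph (V p) where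
  Adj g h := g - h ∈ S p
  symm := ⟨fun g h hh => by
    have := S_neg hh
    rwa [neg_sub] at this⟩
  loopless := ⟨fun g hh => by
    rw [sub_self] at hh
    exact S_zero hh⟩

instance : DecidableRel (G p).Adj := fun g h => inferInstanceAs (Decidable (g - h ∈ S p))

/-- contribution of the cycle -/
noncomputable def beta (a : ZMod p) : ℂ := e (-a) + e a

/-- the eigenvalues of the adjacency matrix -/
noncomputable def theta (v : V p) : ℂ := beta (v.1 0) + (p * (Z v : ℂ) - (T p).card)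

lemma line_sum (t : ZMod p) :
    ∑ c ∈ univ.filter (· ≠ (0 : ZMod p)), e (-(c * t)) = (if t = 0 then (p : ℂ) else 0) - 1 := by
  have h := sum_e (-t)
  rw [← add_sum_erase _ _ (mem_univ (0 : ZMod p)), zero_mul, e_zero] at h
  simp only [neg_eq_zero, mul_neg] at h
  rw [filter_ne', ← h]
  ring

lemma S_sum (h5 : 5 ≤ p) (v : V p) : ∑ s ∈ S p, e (-dot v s) = theta v := by
  have h1 : dot v (cy p) = v.1 0 := by simp [dot, cy]
  have h2 : -dot v (-cy p) = v.1 0 := by simp [dot, cy]
  have n1 : -cy p ∉ S0 p := fun h => snd_ne_of_mem h (by simp [cy])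
  have n2 : cy p ∉ insert (-cy p) (S0 p) := by
    rw [mem_insert, not_or]
    refine ⟨fun h => two_ne h5 ?_, fun h => snd_ne_of_mem h rfl⟩
    have := congrFun (congrArg Prod.fst h) 0
    simp only [cy, Prod.fst_neg, Pi.neg_apply, Pi.single_eq_same] at this
    linear_combination this
  rw [S, sum_insert n2, sum_insert n1, h1, h2, S0, sum_image, LL, sum_product]
  · simp only [dot_smul, line_sum, sum_sub_distrib, sum_const, nsmul_eq_mul, mul_one]
    rw [← sum_filter, sum_const, nsmul_eq_mul, theta, beta, Z]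
    ring
  · intro x hx y _ h
    have hx' := mem_product.1 (mem_coe.1 hx)
    have := pt_inj (mem_filter.1 hx'.2).2 (mem_filter.1 hx'.1).2.1 h
    exact Prod.ext this.1 this.2

variable (p) in
/-- the matrix of characters -/
noncomputable def F : Matrix (V p) (V p) ℂ := fun g v => e (dot v g)

variable (p) in
/-- the matrix of conjugate characters -/
noncomputable def Fb : Matrix (V p) (V p) ℂ := fun v h => e (-dot v h)

lemma F_mul_Fb : F p * Fb p = ((p : ℂ) ^ 6) • (1 : Matrix (V p) (V p) ℂ) := by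
  ext g h
  simp only [Matrix.mul_apply, F, Fb, ← e_add, ← dot_sub, sum_eV, sub_eq_zero, Matrix.smul_apply,
    Matrix.one_apply, smul_eq_mul]
  split_ifs <;> simp

lemma adj_mul_F (h5 : 5 ≤ p) : (G p).adjMatrix ℂ * F p = F p * diagonal theta := by
  ext g v
  rw [Matrix.mul_diagonal, Matrix.mul_apply, ← S_sum h5, ← Equiv.sum_comp (Equiv.subLeft g)]
  simp only [SimpleGraph.adjMatrix_apply, Equiv.subLeft_apply, G, sub_sub_cancel, F, dot_sub,
    e_add, ite_mul, one_mul, zero_mul]
  rw [mul_sum, ← sum_filter]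
  refine sum_congr ?_ fun _ _ => rfl
  ext s; simp

variable (p) in
/-- the mixing time -/
noncomputable def tau : ℝ := 2 * Real.pi / (p : ℝ) ^ 2

variable (p) in
/-- the transition matrix -/
noncomputable def U : Matrix (V p) (V p) ℂ :=
  NormedSpace.exp ((Complex.I * (tau p : ℂ)) • (G p).adjMatrix ℂ)

/-- the eigenvalues of the transition matrix -/
noncomputable def mu (v : V p) : ℂ := Complex.exp (Complex.I * (tau p : ℂ) * theta v)

lemma U_mul_F (h5 : 5 ≤ p) : U p * F p = F p * diagonal mu := by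
  apply exp_mul_eig
  rw [Matrix.smul_mul, adj_mul_F h5, ← Matrix.mul_smul, ← Matrix.diagonal_smul]
  rfl

lemma p_ne : (p : ℂ) ≠ 0 := Nat.cast_ne_zero.2 (Fact.out : p.Prime).ne_zero

/-- the unimodular factor -/
noncomputable def cc (x : W p) : ℂ :=
  Complex.exp (Complex.I * (tau p : ℂ) * (beta (x 0) - (T p).card)) * e (base x)

lemma beta_im (a : ZMod p) : (beta a).im = 0 := by
  unfold beta
  rw [AddChar.map_neg_eq_conj]
  simp

lemma norm_cc (x : W p) : ‖cc x‖ = 1 := by
  unfold cc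
  rw [norm_mul, norm_e, mul_one, Complex.norm_exp]
  simp [beta_im]

lemma e_nat (n : ℕ) : e (n : ZMod p) = Complex.exp (2 * Real.pi * Complex.I / p) ^ n := by
  have := ZMod.stdAddChar_coe (N := p) (n : ℤ)
  unfold e
  rw [Int.cast_natCast] at this
  rw [this, ← Complex.exp_nat_mul]
  congr 1
  push_cast
  ring

lemma mu_eq (h5 : 5 ≤ p) (x y : W p) : mu (x, y) = cc x * e ((fun i => (x i)⁻¹) ⬝ᵥ y) := by
  unfold mu cc theta
  rw [mul_assoc _ (e _), ← e_add, ← Z_eq h5, e_nat, ← Complex.exp_nat_mul, ← Complex.exp_add]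
  congr 1
  have := p_ne (p := p)
  unfold tau
  push_cast
  field_simp
  ring

lemma norm_U (h5 : 5 ≤ p) (g h : V p) : ‖U p g h‖ = 1 / (p : ℝ) ^ 3 := by
  have h1 : ((p : ℂ) ^ 6) • U p = F p * diagonal mu * Fb p := by
    rw [← U_mul_F h5, Matrix.mul_assoc, F_mul_Fb, Matrix.mul_smul, Matrix.mul_one]
  have h2 : (p : ℂ) ^ 6 * U p g h = ∑ v : V p, e (dot v (g - h)) * mu v := by
    have := congrFun (congrFun h1 g) h
    rw [Matrix.smul_apply, smul_eq_mul] at this
    rw [this, Matrix.mul_apply]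
    refine sum_congr rfl fun v _ => ?_
    rw [Matrix.mul_diagonal, dot_sub, e_add]
    unfold F Fb
    ring
  set x0 : W p := fun i => (-(g - h).2 i)⁻¹ with hx0
  have h3 : ∀ x : W p, ∑ y : W p, e (dot (x, y) (g - h)) * mu (x, y) =
      if x = x0 then (p : ℂ) ^ 3 * (e (x ⬝ᵥ (g - h).1) * cc x) else 0 := by
    intro x
    have h4 : ∀ y : W p, e (dot (x, y) (g - h)) * mu (x, y) =
        (e (x ⬝ᵥ (g - h).1) * cc x) * e (y ⬝ᵥ ((g - h).2 + fun i => (x i)⁻¹)) := by
      intro y
      rw [mu_eq h5, dotProduct_add, dot, e_add, e_add, dotProduct_comm (fun i => (x i)⁻¹)]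
      ring
    have h5' : ((g - h).2 + fun i => (x i)⁻¹) = 0 ↔ x = x0 := by
      rw [funext_iff, funext_iff]
      refine forall_congr' fun i => ?_
      rw [hx0, Pi.add_apply, Pi.zero_apply, add_eq_zero_iff_neg_eq, eq_comm, inv_eq_iff_eq_inv]
    simp only [h4]
    rw [← mul_sum, sum_eW]
    by_cases hx : x = x0
    · rw [if_pos (h5'.2 hx), if_pos hx, mul_comm]
    · rw [if_neg (mt h5'.1 hx), if_neg hx, mul_zero]
  rw [Fintype.sum_prod_type] at h2
  simp only [h3, sum_ite_eq', mem_univ, if_true] at h2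
  have h6 := congrArg norm h2
  rw [norm_mul, norm_mul, norm_mul, norm_e, norm_cc, norm_pow, norm_pow, Complex.norm_natCast]
    at h6
  have hp : (0 : ℝ) < p := Nat.cast_pos.2 (Fact.out : p.Prime).pos
  rw [eq_div_iff (by positivity)]
  have h7 : (p : ℝ) ^ 3 * (‖U p g h‖ * (p : ℝ) ^ 3) = (p : ℝ) ^ 3 * 1 := by linear_combination h6
  exact mul_left_cancel₀ (by positivity) h7

lemma eig (h5 : 5 ≤ p) (v : V p) : U p *ᵥ (fun g => F p g v) = mu v • (fun g => F p g v) := by
  funext g
  have := congrFun (congrFun (U_mul_F h5) g) v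
  rw [Matrix.mul_diagonal, Matrix.mul_apply] at this
  simp only [Matrix.mulVec, dotProduct, Pi.smul_apply, smul_eq_mul]
  rw [this, mul_comm]

lemma col_ne (v : V p) : (fun g => F p g v) ≠ 0 := by
  intro h
  have := congrFun h 0
  have h2 := norm_e (dot v 0)
  simp only [F, Pi.zero_apply] at this
  rw [this] at h2
  simp at h2

lemma hasSum_U (a b : V p) :
    HasSum (fun n : ℕ => (Complex.I * ((2 * Real.pi / (p : ℝ) ^ 2 : ℝ) : ℂ)) ^ n /
      (n.factorial : ℂ) * ((G p).adjMatrix ℂ ^ n) a b) (U p a b) := by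
  have h : HasSum (fun n : ℕ => ((n.factorial : ℂ)⁻¹) •
      ((Complex.I * (tau p : ℂ)) • (G p).adjMatrix ℂ) ^ n) (U p) := by
    open scoped Norms.Operator in
    exact NormedSpace.exp_series_hasSum_exp' (𝕂 := ℂ)
      ((Complex.I * (tau p : ℂ)) • (G p).adjMatrix ℂ)
  have h2 := Pi.hasSum.1 (Pi.hasSum.1 h a) b
  refine h2.congr_fun ?_
  intro n
  simp only [smul_pow, Matrix.smul_apply, smul_eq_mul, tau]
  ring

lemma connected (h5 : 5 ≤ p) : (G p).Connected := by
  refine (SimpleGraph.connected_iff _).2 ⟨fun a b => ?_, ⟨0⟩⟩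
  by_contra hab
  have h0 : ∀ n : ℕ, ((G p).adjMatrix ℂ ^ n) a b = 0 := by
    intro n
    rw [SimpleGraph.adjMatrix_pow_apply_eq_card_walk]
    have : IsEmpty {w : (G p).Walk a b | w.length = n} := ⟨fun w => hab ⟨w.1⟩⟩
    simp
  have h1 := hasSum_U a b
  simp only [h0, mul_zero] at h1
  have h2 := norm_U h5 a b
  rw [← hasSum_zero.unique h1, norm_zero] at h2
  have hp : (0 : ℝ) < p := Nat.cast_pos.2 (Fact.out : p.Prime).pos
  exact absurd h2 (by positivity : (0 : ℝ) < 1 / (p : ℝ) ^ 3).ne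

lemma coeff_eq (α : ZMod p → ℤ) (h : ∑ x, (α x : ℂ) * e x = 0) (x y : ZMod p) : α x = α y := by
  have hp : p.Prime := Fact.out
  have hb : Function.Bijective fun i : Fin p => ((i : ℕ) : ZMod p) := by
    refine ⟨fun i j hij => Fin.ext ?_, fun x => ⟨⟨x.val, ZMod.val_lt x⟩, ZMod.natCast_zmod_val x⟩⟩
    have := congrArg ZMod.val hij
    rwa [ZMod.val_natCast_of_lt i.2, ZMod.val_natCast_of_lt j.2] at this
  rw [← hb.sum_comp] at h
  simp only [e_nat] at h
  have := ((Complex.isPrimitiveRoot_exp p hp.ne_zero).sum_eq_zero_iff_forall_eq_int hp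
    fun i => α ((i : ℕ) : ZMod p)).1 h
  obtain ⟨i, rfl⟩ := hb.2 x
  obtain ⟨j, rfl⟩ := hb.2 y
  exact this i j

lemma cast_ne {a b : ℕ} (ha : a < p) (hb : b < p) (h : a ≠ b) : (a : ZMod p) ≠ b := by
  intro h'
  have := congrArg ZMod.val h'
  rw [ZMod.val_natCast_of_lt ha, ZMod.val_natCast_of_lt hb] at this
  exact h this

lemma cast_ne_neg {a b : ℕ} (h0 : 0 < a + b) (h : a + b < p) : (a : ZMod p) ≠ -(b : ZMod p) := by
  intro h'
  refine cast_ne (p := p) h (by omega) h0.ne' ?_
  push_cast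
  rw [h', neg_add_cancel]

/-- the characters that carry the independent eigenvalues -/
def vv (j : Fin ((p - 3) / 2)) : V p := (Pi.single 0 ((j.val + 1 : ℕ) : ZMod p), 0)

lemma indep (h5 : 5 ≤ p) (n : Fin ((p - 3) / 2) → ℤ) (h : ∏ j, mu (vv j) ^ n j = 1) : n = 0 := by
  simp only [mu, ← Complex.exp_int_mul] at h
  rw [← Complex.exp_sum, Complex.exp_eq_one_iff] at h
  obtain ⟨k, hk⟩ := h
  have hp := p_ne (p := p)
  have hpi : (Real.pi : ℂ) ≠ 0 := by exact_mod_cast Real.pi_ne_zero
  have h1 : ∑ j, (n j : ℂ) * theta (vv j) = (p : ℂ) ^ 2 * k := by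
    have h2 : (2 * Real.pi * Complex.I / (p : ℂ) ^ 2) * ∑ j, (n j : ℂ) * theta (vv j) =
        (2 * Real.pi * Complex.I / (p : ℂ) ^ 2) * ((p : ℂ) ^ 2 * k) := by
      have e1 : (2 * Real.pi * Complex.I / (p : ℂ) ^ 2) * ((p : ℂ) ^ 2 * k) =
          k * (2 * Real.pi * Complex.I) := by field_simp
      rw [e1, ← hk, mul_sum]
      refine sum_congr rfl fun j _ => ?_
      unfold tau
      push_cast
      ring
    refine mul_left_cancel₀ ?_ h2
    simp [hpi, (Fact.out : p.Prime).ne_zero]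
  set N : ℤ := (p : ℤ) ^ 2 * k - ∑ j, n j * (p * (Z (vv j) : ℤ) - (T p).card) with hN
  set c : Fin ((p - 3) / 2) → ZMod p := fun j => ((j.val + 1 : ℕ) : ZMod p) with hc
  set α : ZMod p → ℤ := fun x => ∑ j, n j * ((if x = c j then 1 else 0) +
    (if x = -c j then 1 else 0)) - N * (if x = 0 then 1 else 0) with hα
  have h3 : ∑ x, (α x : ℂ) * e x = 0 := by
    have e1 : ∀ j, ∑ x : ZMod p, ((n j : ℂ) * ((if x = c j then 1 else 0) +
        (if x = -c j then 1 else 0))) * e x = n j * beta (c j) := fun j => by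
      simp only [mul_assoc, ← mul_sum, add_mul, sum_add_distrib, ite_mul, one_mul, zero_mul,
        sum_ite_eq', mem_univ, if_true, beta, add_comm]
    have e2 : ∀ j, theta (vv j) = beta (c j) + (p * (Z (vv j) : ℂ) - (T p).card) := fun j => by
      simp [theta, vv, hc]
    simp only [hα]
    push_cast
    simp only [sub_mul, sum_sub_distrib, sum_mul]
    rw [sum_comm]
    simp only [e1, mul_ite, mul_one, mul_zero, ite_mul, zero_mul, sum_ite_eq', mem_univ, if_true,
      e_zero]
    simp only [e2, mul_add, sum_add_distrib] at h1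
    rw [hN]
    push_cast
    linear_combination h1
  have h4 : α (((p - 1) / 2 : ℕ) : ZMod p) = 0 := by
    have z : (((p - 1) / 2 : ℕ) : ZMod p) ≠ 0 := by
      have := cast_ne (p := p) (a := (p - 1) / 2) (b := 0) (by omega) (by omega) (by omega)
      simpa using this
    simp only [hα, if_neg z, mul_zero, sub_zero]
    refine sum_eq_zero fun j _ => ?_
    have hj := j.2
    rw [if_neg (cast_ne (by omega) (by omega) (by omega)),
      if_neg (cast_ne_neg (by omega) (by omega))]
    simp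
  funext j₀
  have hj₀ := j₀.2
  have h6 : α (c j₀) = n j₀ := by
    have z : c j₀ ≠ 0 := by
      have := cast_ne (p := p) (a := j₀.val + 1) (b := 0) (by omega) (by omega) (by omega)
      simpa [hc] using this
    simp only [hα, if_neg z, mul_zero, sub_zero]
    rw [sum_eq_single j₀]
    · rw [if_pos rfl, if_neg (cast_ne_neg (by omega) (by omega))]
      simp
    · intro j _ hj
      have hj' := j.2
      have : j.val ≠ j₀.val := fun h => hj (Fin.ext h)
      rw [if_neg (cast_ne (by omega) (by omega) (by omega)),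
        if_neg (cast_ne_neg (by omega) (by omega))]
      simp
    · exact fun h => absurd (mem_univ _) h
  rw [← h6, coeff_eq α h3 _ (((p - 1) / 2 : ℕ) : ZMod p), h4]
  rfl

end Pool.Agent.Lib.MP_3e2ec7_co.RK
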